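import Pool.Agent.Lib.MP_252578_ntA.Mass

/-!
`f_ab(x, q, k)` (`fab q k a b x`) is the proportion, among the primes `p_n ≤ x`, of those with `p_n ≡ a` and `p_{n+k} ≡ b` modulo
the prime `q`.  Unconditionally and uniformly in `q`: the matrix of the `f_ab` has at least `(c / k) (q - 1)²` entries of the
predicted order `1 / (q - 1)²`, and at least `m` of them in all but `O(k m)` rows and in all but `O(k m)` columns.
-/

set_option autoImplicit false

open Finset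

namespace Pool.Agent.Results.MP_252578_nt.ManyPatterns

open Pool.Agent.Lib.MP_252578_ntA

/-- There are absolute constants `c, C > 0` and `X` such that for all `x ≥ X`, all primes `q` with `4 q² ≤ log x` and all `k ≥ 1`:
(1) at least `(c / k) (q - 1)²` of the `(q - 1)²` pairs `(a, b)` of nonzero classes have `f_ab(x, q, k) ≥ c / (q - 1)²`;
(2) for all `m`, for all but at most `C k m` classes `a ≠ 0` at least `m` classes `b ≠ 0` have `f_ab(x, q, k) ≥ c / (q - 1)²`;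
(3) for all `m`, for all but at most `C k m` classes `b ≠ 0` at least `m` classes `a ≠ 0` have
`f_ab(x, q, k) ≥ c / (q - 1)²`. -/
theorem result : ∃ c C X : ℝ, 0 < c ∧ 0 < C ∧ ∀ x ≥ X, ∀ q k : ℕ, q.Prime → 4 * (q : ℝ) ^ 2 ≤ Real.log x → 1 ≤ k →
    (c / k * ((q : ℝ) - 1) ^ 2 ≤ (Nat.card {s : ZMod q × ZMod q // s.1 ≠ 0 ∧ s.2 ≠ 0 ∧
      c / ((q : ℝ) - 1) ^ 2 ≤ fab q k s.1 s.2 x} : ℝ)) ∧
    (∀ m : ℕ, (Nat.card {a : ZMod q // a ≠ 0 ∧
      Nat.card {b : ZMod q // b ≠ 0 ∧ c / ((q : ℝ) - 1) ^ 2 ≤ fab q k a b x} < m} : ℝ) ≤ C * k * m) ∧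
    ∀ m : ℕ, (Nat.card {b : ZMod q // b ≠ 0 ∧
      Nat.card {a : ZMod q // a ≠ 0 ∧ c / ((q : ℝ) - 1) ^ 2 ≤ fab q k a b x} < m} : ℝ) ≤ C * k * m := by
  obtain ⟨C₀, X, hC₀, hX, hall₀⟩ := law_bound
  obtain ⟨X₂, _, hrc⟩ := rows_cols
  obtain ⟨C, hCd⟩ : ∃ C : ℝ, C = max C₀ 1 := ⟨_, rfl⟩
  have hC1 : 1 ≤ C := by rw [hCd]; exact le_max_right _ _
  have hCC : C₀ ≤ C := by rw [hCd]; exact le_max_left _ _
  have hC : 0 < C := by linarith
  have hC2 : 0 < 1 / (4 * C ^ 2) := by positivity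
  obtain ⟨Y, hY⟩ := Filter.eventually_atTop.1
    (((Nat.tendsto_primeCounting.comp (tendsto_nat_floor_atTop (α := ℝ))).eventually_ge_atTop 8))
  refine ⟨min (1 / 8) (1 / (4 * C ^ 2)), 16 * C ^ 2, max (max X Y) X₂, lt_min (by norm_num) hC2,
    by positivity, fun x hx q k hq hxq hk => ?_⟩
  have : NeZero q := ⟨hq.ne_zero⟩
  have hq2 : (2 : ℝ) ≤ q := by exact_mod_cast hq.two_le
  have hq1 : (0 : ℝ) < (q : ℝ) - 1 := by linarith
  have h1 : ∀ S : Finset (ZMod q × ZMod q),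
      ∑ s ∈ S, fab q k s.1 s.2 x ≤ C * Real.sqrt (k * S.card) / ((q : ℝ) - 1) := by
    intro S
    refine (hall₀ x (((le_max_left _ _).trans (le_max_left _ _)).trans hx) q k hq hxq hk S).trans ?_
    exact div_le_div_of_nonneg_right (mul_le_mul_of_nonneg_right hCC (Real.sqrt_nonneg _)) hq1.le
  have h2 : 8 ≤ Nat.primeCounting ⌊x⌋₊ := hY x (((le_max_right _ _).trans (le_max_left _ _)).trans hx)
  have h3 := hrc x ((le_max_right _ _).trans hx) q k hq hxq C (min (1 / 8) (1 / (4 * C ^ 2))) hC1 (min_le_left _ _) h1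
  exact ⟨many hC ((min_le_left _ _).trans (by norm_num)) (min_le_right _ _) hq hk h2 h1,
    fun m => (h3 m).1, fun m => (h3 m).2⟩

end Pool.Agent.Results.MP_252578_nt.ManyPatterns
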