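import Pool.Agent.Lib.MP_252578_ntA.Cor

/-!
`f_ab(x, q, k)` (`fab q k a b x`) is the proportion, among the primes `p_n ≤ x`, of those with `p_n ≡ a` and `p_{n+k} ≡ b` modulo
the prime `q`.  Unconditionally and uniformly in `q`: a set of few pairs of classes carries little mass.
-/

set_option autoImplicit false

open Finset

namespace Pool.Agent.Results.MP_252578_nt.SmallSets

open Pool.Agent.Lib.MP_252578_ntA

/-- There are absolute constants `C > 0` and `X` such that for all `x ≥ X`, all primes `q` with `4 q² ≤ log x`, all `k ≥ 1` and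
every set `S` of pairs of classes modulo `q`, the proportion of the primes `p_n ≤ x` with `(p_n, p_{n+k}) mod q` in `S` is at most
`C √(k |S|) / (q - 1)`. -/
theorem result : ∃ C X : ℝ, 0 < C ∧ ∀ x ≥ X, ∀ q k : ℕ, q.Prime → 4 * (q : ℝ) ^ 2 ≤ Real.log x → 1 ≤ k →
    ∀ S : Finset (ZMod q × ZMod q),
      ∑ s ∈ S, fab q k s.1 s.2 x ≤ C * Real.sqrt (k * S.card) / ((q : ℝ) - 1) := by
  obtain ⟨C, X, hC, _, hall⟩ := law_bound
  exact ⟨C, X, hC, hall⟩

end Pool.Agent.Results.MP_252578_nt.SmallSets
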